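import Pool.Agent.Lib.MP_8f60dc_al.NX.Span
import Pool.Agent.Lib.MP_8f60dc_al.NX.Main

/-!
# Infinitely branching graphs: definitions
-/

set_option autoImplicit false

namespace Pool.Agent.Lib.MP_8f60dc_al

open Relation

/-- Infinite branching: whenever a path of positive length leads from `v` to `u`, infinitely many
edges leave `v` from whose range a path (possibly trivial) leads to `u`. -/
def DGraph.InfBranch (E : DGraph) : Prop :=
  ∀ v u, TransGen E.Step v u →
    {e | E.src e = v ∧ ReflTransGen E.Step (E.rng e) u}.Infinite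

/-- The family of adjoints. -/
def Fam.adj {E : DGraph} {B : Type*} [Star B] (l : Fam E B) : Fam E B where
  P v := star (l.P v)
  S e := star (l.T e)
  T e := star (l.S e)

namespace IB

/-- Hereditary sets of vertices. -/
def Hered (E : DGraph) (H : Set E.V) : Prop := ∀ v w, E.Step v w → v ∈ H → w ∈ H

/-- The word `p q^*` through the vertex `v`. -/
def wd {E : DGraph} (v : E.V) (p q : List E.Ed) : LPA E := (lf E).SP v p * (lf E).TP v q

/-- Words along paths. -/
def Valid {E : DGraph} (v : E.V) (p q : List E.Ed) : Prop :=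
  (∃ a, IsPath E p a v) ∧ ∃ b, IsPath E q b v

/-- The ideal of a hereditary set: the span of the words through its vertices. -/
def idl {E : DGraph} (H : Set E.V) : Submodule ℂ (LPA E) :=
  Submodule.span ℂ {y | ∃ v p q, v ∈ H ∧ Valid v p q ∧ y = wd v p q}

/-- The span of the commutators. -/
def comm (E : DGraph) : Submodule ℂ (LPA E) :=
  Submodule.span ℂ {y | ∃ a b : LPA E, y = a * b - b * a}

/-- Two-sided ideals. -/
def IsId {E : DGraph} (J : Submodule ℂ (LPA E)) : Prop :=
  ∀ x y, y ∈ J → x * y ∈ J ∧ y * x ∈ J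

/-- The vertices which `v` reaches. -/
def dn {E : DGraph} (v : E.V) : Set E.V := {u | ReflTransGen E.Step v u}

/-- The component of `v`. -/
def cp {E : DGraph} (v : E.V) : Set E.V :=
  {u | ReflTransGen E.Step v u ∧ ReflTransGen E.Step u v}

/-- The vertices strictly below `v`. -/
def bl {E : DGraph} (v : E.V) : Set E.V :=
  {u | ReflTransGen E.Step v u ∧ ¬ ReflTransGen E.Step u v}

/-- New edges of the amplification. -/
abbrev NewEd (E : DGraph) : Type := {g : E.V × E.V × ℕ // TransGen E.Step g.1 g.2.1}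

/-- The amplification: infinitely many new edges from `v` to `u` whenever a path of positive
length leads from `v` to `u`. -/
def amp (E : DGraph) : DGraph where
  V := E.V
  Ed := E.Ed ⊕ NewEd E
  src := Sum.elim E.src fun g => g.1.1
  rng := Sum.elim E.rng fun g => g.1.2.1

/-- The choices for the amplification. -/
structure Choice (E : DGraph) where
  enc : NewEd E × ℕ → ℕ
  a : NewEd E × ℕ → E.Ed
  μ : NewEd E × ℕ → List E.Ed
  inj : Function.Injective enc
  mono : ∀ g i, enc (g, i) < enc (g, i + 1)
  ainj : Function.Injective a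
  asrc : ∀ κ, E.src (a κ) = κ.1.1.1
  path : ∀ κ, IsPath E (μ κ) (E.rng (a κ)) κ.1.1.2.1
  avoid : ∀ κ κ', enc κ ≤ enc κ' → a κ' ∉ μ κ

/-- The next requirement. -/
def nx {E : DGraph} (κ : NewEd E × ℕ) : NewEd E × ℕ := (κ.1, κ.2 + 1)

namespace Choice

variable {E : DGraph} (c : Choice E) {R : Type*} [NonUnitalRing R] (l : Fam E R)

/-- The word of the path of a requirement. -/
def M (κ : NewEd E × ℕ) : R := l.SP κ.1.1.2.1 (c.μ κ)

/-- The adjoint word. -/
def N (κ : NewEd E × ℕ) : R := l.TP κ.1.1.2.1 (c.μ κ)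

open Classical in
/-- The family of the amplification made of a family of `E`. -/
noncomputable def plus : Fam (amp E) R where
  P v := l.P v
  S := Sum.elim
    (fun e => if h : ∃ κ, c.a κ = e then
        l.S e - l.S e * (c.M l h.choose * c.N l h.choose) +
          l.S (c.a (nx h.choose)) * (c.M l (nx h.choose) * c.N l h.choose)
      else l.S e)
    (fun g => l.S (c.a (g, 0)) * c.M l (g, 0))
  T := Sum.elim
    (fun e => if h : ∃ κ, c.a κ = e then
        l.T e - c.M l h.choose * c.N l h.choose * l.T e +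
          c.M l h.choose * c.N l (nx h.choose) * l.T (c.a (nx h.choose))
      else l.T e)
    (fun g => c.N l (g, 0) * l.T (c.a (g, 0)))

end Choice

/-- Isomorphisms of Leavitt path algebras. -/
structure AIso (E F : DGraph) where
  f : LPA E →ₙₐ[ℂ] LPA F
  g : LPA F →ₙₐ[ℂ] LPA E
  gf : ∀ x, g (f x) = x
  fg : ∀ y, f (g y) = y

/-- The inverse isomorphism. -/
def AIso.symm {E F : DGraph} (I : AIso E F) : AIso F E := ⟨I.g, I.f, I.fg, I.gf⟩

/-- Corresponding vertices: they generate corresponding ideals. -/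
def AIso.Rel {E F : DGraph} (I : AIso E F) (v : E.V) (w : F.V) : Prop :=
  I.f ((lf E).P v) ∈ idl (dn w) ∧ I.g ((lf F).P w) ∈ idl (dn v)

/-- Isomorphisms of Leavitt path algebras compatible with the involutions. -/
structure SIso (E F : DGraph) extends AIso E F where
  cf : ∀ (B : Type) [NonUnitalCStarAlgebra B] (φ : LPA F →ₙₐ[ℂ] B),
    IsCK ((lf F).map φ) → IsCK ((lf E).map (φ.comp f))
  cg : ∀ (B : Type) [NonUnitalCStarAlgebra B] (φ : LPA E →ₙₐ[ℂ] B),
    IsCK ((lf E).map φ) → IsCK ((lf F).map (φ.comp g))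

end IB

end Pool.Agent.Lib.MP_8f60dc_al
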