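import Pool.Agent.Lib.MP_8f60dc_al.IB.Stm

/-!
# The isomorphism of the graph C*-algebras
-/

set_option autoImplicit false

namespace Pool.Agent.Lib.MP_8f60dc_al.IB

open Relation

noncomputable section

variable {E F : DGraph} {A B : Type} [NonUnitalCStarAlgebra A] [NonUnitalCStarAlgebra B]
  {l : Fam E A} {m : Fam F B}

/-- One direction of the isomorphism. -/
theorem fin_half (hA : IsGraphCStar E A l) (hB : IsGraphCStar F B m) (φ : LPA E →ₙₐ[ℂ] LPA F)
    (hφ : IsCK ((lf E).map ((lLift hB.ck.lv).comp φ))) :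
    ∃ f : SHom A B, ∀ x, f (lLift hA.ck.lv x) = lLift hB.ck.lv (φ x) := by
  obtain ⟨f, hf, -⟩ := hA.univ B _ hφ
  refine ⟨f, ?_⟩
  have h : (lf E).map ((f : A →ₙₐ[ℂ] B).comp (lLift hA.ck.lv)) =
      (lf E).map ((lLift hB.ck.lv).comp φ) := by
    rw [← hf]
    have h1 : (lf E).map (lLift hA.ck.lv) = l := lLift_lf hA.ck.lv
    conv_rhs => rw [← h1]
    rfl
  exact lpa_ext h

/-- Endomorphisms of the graph C*-algebra which fix the Leavitt path algebra. -/
theorem fin_id (hA : IsGraphCStar E A l) (f : SHom A A)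
    (h : ∀ x, f (lLift hA.ck.lv x) = lLift hA.ck.lv x) (a : A) : f a = a := by
  have h1 : (lf E).map (lLift hA.ck.lv) = l := lLift_lf hA.ck.lv
  have h2 : l.map f = l := by
    conv_lhs => rw [← h1]
    conv_rhs => rw [← h1]
    ext x
    · exact h _
    · exact h _
    · exact h _
  have h3 : l.map (NonUnitalStarAlgHom.id ℂ A) = l := rfl
  have h4 := (hA.univ A l hA.ck).unique h2 h3
  rw [h4]
  rfl

theorem fin_iso (hA : IsGraphCStar E A l) (hB : IsGraphCStar F B m) (I : SIso E F) :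
    ∃ f : A ≃⋆ₐ[ℂ] B, ∀ x, f (lLift hA.ck.lv x) = lLift hB.ck.lv (I.f x) := by
  have hm : IsCK ((lf F).map (lLift hB.ck.lv)) := by
    rw [lLift_lf hB.ck.lv]
    exact hB.ck
  have hl : IsCK ((lf E).map (lLift hA.ck.lv)) := by
    rw [lLift_lf hA.ck.lv]
    exact hA.ck
  obtain ⟨f, hf⟩ := fin_half hA hB I.f (I.cf B _ hm)
  obtain ⟨g, hg⟩ := fin_half hB hA I.g (I.cg A _ hl)
  have gf : ∀ a, g (f a) = a := fin_id hA (g.comp f) fun x => by
    change g (f _) = _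
    rw [hf, hg, I.gf]
  have fg : ∀ b, f (g b) = b := fin_id hB (f.comp g) fun x => by
    change f (g _) = _
    rw [hg, hf, I.fg]
  let e : A ≃⋆ₐ[ℂ] B :=
    { f with
      toFun := f
      invFun := g
      left_inv := gf
      right_inv := fg
      map_smul' := fun t x => map_smul f t x
      map_star' := fun x => map_star f x }
  exact ⟨e, hf⟩

/-- The graph C*-algebra part. -/
theorem fin_main [Countable E.V] [Countable E.Ed] [Countable F.V] [Countable F.Ed]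
    (hinj : S_inj) (hE : E.InfBranch) (hF : F.InfBranch)
    (hA : IsGraphCStar E A l) (hB : IsGraphCStar F B m) (I : SIso E F) :
    ∃ (i : LPA E → A) (j : LPA F → B), IsCanonical l i ∧ IsCanonical m j ∧
      Function.Injective i ∧ Function.Injective j ∧
      ∃ (f : A ≃⋆ₐ[ℂ] B) (Ψ : LPA E → LPA F), IsAlgIso Ψ ∧ ∀ x, f (i x) = j (Ψ x) := by
  obtain ⟨f, hf⟩ := fin_iso hA hB I
  refine ⟨lLift hA.ck.lv, lLift hB.ck.lv, ⟨lLift_lf _, _, fun _ => rfl⟩,
    ⟨lLift_lf _, _, fun _ => rfl⟩, hinj E hE A _ fun v h => ?_, hinj F hF B _ fun v h => ?_,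
    f, I.f, ⟨⟨fun x y h => ?_, fun y => ⟨I.g y, I.fg y⟩⟩, I.f, fun _ => rfl⟩, hf⟩
  · exact cstar_P_ne hA v ((congrFun (congrArg Fam.P (lLift_lf hA.ck.lv)) v).symm.trans h)
  · exact cstar_P_ne hB v ((congrFun (congrArg Fam.P (lLift_lf hB.ck.lv)) v).symm.trans h)
  · rw [← I.gf x, ← I.gf y]
    exact congrArg I.g h

/-- The main theorem from the pieces. -/
theorem fin_result (hinj : S_inj) (hfwd : S_fwd) (hback : S_back)
    (E F : DGraph) [Countable E.V] [Countable E.Ed] [Countable F.V] [Countable F.Ed]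
    (hE : E.InfBranch) (hF : F.InfBranch) :
    ((∃ Φ : LPA E → LPA F, IsAlgIso Φ) ↔ ∃ β : E.V ≃ F.V, ∀ v w,
      TransGen E.Step v w ↔ TransGen F.Step (β v) (β w)) ∧
    ∀ (A B : Type) [NonUnitalCStarAlgebra A] [NonUnitalCStarAlgebra B] (l : Fam E A) (m : Fam F B),
      IsGraphCStar E A l → IsGraphCStar F B m → (∃ Φ : LPA E → LPA F, IsAlgIso Φ) →
      ∃ (i : LPA E → A) (j : LPA F → B), IsCanonical l i ∧ IsCanonical m j ∧
        Function.Injective i ∧ Function.Injective j ∧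
        ∃ (f : A ≃⋆ₐ[ℂ] B) (Ψ : LPA E → LPA F), IsAlgIso Ψ ∧ ∀ x, f (i x) = j (Ψ x) := by
  have h1 : (∃ Φ : LPA E → LPA F, IsAlgIso Φ) → ∃ β : E.V ≃ F.V, ∀ v w,
      TransGen E.Step v w ↔ TransGen F.Step (β v) (β w) := by
    rintro ⟨Φ, hb, φ, hφ⟩
    have e : Φ = φ := funext fun x => (hφ x).symm
    subst e
    obtain ⟨ψ, h1, h2⟩ := exists_inv φ hb
    exact hfwd E F hE hF ⟨φ, ψ, h1, h2⟩
  refine ⟨⟨h1, ?_⟩, ?_⟩
  · rintro ⟨β, hβ⟩
    obtain ⟨I⟩ := hback E F hE hF β hβ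
    refine ⟨I.f, ⟨fun x y h => ?_, fun y => ⟨I.g y, I.fg y⟩⟩, I.f, fun _ => rfl⟩
    rw [← I.gf x, ← I.gf y]
    exact congrArg I.g h
  · intro A B _ _ l m hA hB hΦ
    obtain ⟨β, hβ⟩ := h1 hΦ
    obtain ⟨I⟩ := hback E F hE hF β hβ
    exact fin_main hinj hE hF hA hB I

end

end Pool.Agent.Lib.MP_8f60dc_al.IB
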