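import Pool.Agent.Lib.MP_8f60dc_al.IB.Defs

/-!
# Infinitely branching graphs: statements of the pieces

Theorem: let `E`, `F` be countable graphs with infinite branching.  If the Leavitt path algebras
are isomorphic as algebras, then the reachability relations are isomorphic, and if the
reachability relations are isomorphic, then there is a *-isomorphism of the graph C*-algebras
which restricts to an isomorphism of the Leavitt path algebras.
-/

set_option autoImplicit false

namespace Pool.Agent.Lib.MP_8f60dc_al.IB

open Relation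

/-- No vertex is regular.  Proof: an edge `e` in `s` gives `TransGen Step v (rng e)`, so infinitely
many edges leave `v`, all of them in `s`. -/
def S_noreg : Prop := ∀ (E : DGraph), E.InfBranch → ∀ (v : E.V) (s : Finset E.Ed), s.Nonempty →
  ¬ ∀ e, e ∈ s ↔ E.src e = v

open Classical in
/-- The trace of a vertex.  Proof: let `W` be the space of all functions on
`E.V × List E.Ed × List E.Ed`; a triple `(w, p, b)` stands for the word `p q^*` through `w`, where
`b = q.reverse`.  Put `st (w, p) = w` if `p = []` and `src f` if `p = f :: _`.  Let `P v` act by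
`(P v φ) (w, p, b) = if st (w, p) = v then φ (w, p, b) else 0`, `S e` by
`(S e φ) (w, f :: p, b) = if f = e ∧ st (w, p) = rng e then φ (w, p, b) else 0` and
`(S e φ) (w, [], b) = 0`, and `T e` by
`(T e φ) (w, p, b) = (if st (w, p) = rng e then φ (w, e :: p, b) else 0) +
  (if p = [] ∧ w = rng e ∧ b.head? = some e then φ (src e, [], b.tail) else 0)`.
These linear maps form a Leavitt family in `Module.End ℂ W` (the last relation is vacuous by the
hypothesis): all relations are checked pointwise.  Let `φ₁ (w, p, b) = 1` if `p = b = []` and `0`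
otherwise.  Then `wd w p q` sends `φ₁` to the indicator function of `(w, p, q.reverse)` if
`Valid w p q` (first `TP w q`: induction, more generally `TP w q` sends the indicator of
`(b₀, [], c)` to the indicator of `(w, [], q.reverse ++ c)` if `q` is a path from `b₀` to `w`).
So the coefficient `k x (w, p, b) = (x • φ₁) (w, p, b)` is linear in `x`, and for every `x` it has
finite support (`lpa_words`; invalid words vanish by `SP_zero`, `TP_zero`).
Put `t x = ∑ᶠ p, k x (u, p, p.reverse)`.  This is linear and has the right values on valid words.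
`t (x y) = t (y x)`: the set of all `x` such that this holds for all `y` is closed under sums,
multiples and products (`t (x x' y) = t (x' y x) = t (y x x')`), so take `x` a generator and, by
linearity in `y`, `y` a valid word `wd w p q`:
`S e * wd w p q = wd w (e :: p) q` (0 if `p` does not start at `rng e`),
`wd w p (e :: q) * S e = wd w p q` if `q` starts at `rng e`, `wd w p (f :: q) * S e = 0` for
`f ≠ e`, `wd w p [] * S e = wd (rng e) (p ++ [e]) []` if `w = src e`, `0` otherwise, and
symmetrically for `T e`; compare the values of `t` (`p = q` forces the same start). -/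
def S_trace : Prop := ∀ (E : DGraph), (∀ (v : E.V) (s : Finset E.Ed), s.Nonempty →
  ¬ ∀ e, e ∈ s ↔ E.src e = v) → ∀ u : E.V, ∃ t : LPA E →ₗ[ℂ] ℂ,
    (∀ x y, t (x * y) = t (y * x)) ∧
      ∀ v p q, Valid v p q → t (wd v p q) = if p = q ∧ v = u then 1 else 0

/-- The degree derivation.  Proof: the upper triangular matrices
`P v ↦ !![P v, 0; 0, P v]`, `S e ↦ !![S e, S e; 0, S e]`, `T e ↦ !![T e, -T e; 0, T e]` form a
Leavitt family in `Matrix (Fin 2) (Fin 2) (LPA E)` (`ck`: use `lf_leavitt.ck`, the upper right
corner of `∑ S e T e` is `∑ (-S e T e + S e T e) = 0`).  Let `θ = lLift` of it.  All values are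
upper triangular with both diagonal entries `x` (`lpa_ext` or an induction), so `D x = θ x 0 1`
is a derivation.  The value on words by induction on the lists. -/
def S_der : Prop := ∀ E : DGraph, ∃ D : LPA E →ₗ[ℂ] LPA E,
  (∀ x y, D (x * y) = D x * y + x * D y) ∧
    ∀ v p q, D (wd v p q) = ((p.length : ℂ) - (q.length : ℂ)) • wd v p q

/-- Reduction.  Proof: by `lpa_words`, `x` is a finite sum of words; the invalid words vanish and
the words through vertices of `H` are in `idl H`; so `x = z + ∑ t ∈ s, k t • wd t.1 t.2.1 t.2.2`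
with `z ∈ idl H`, a finite set `s` of valid words through vertices outside `H`, `k t ≠ 0`, and
`s` nonempty since `x ∉ idl H`.  Choose `t₁ = (w, p₁, q₁)` in `s` with
`(q₁.length, p₁.length)` lexicographically minimal.  For a valid word `t = (v, p, q)` with
`q₁.length ≤ q.length` the product `TP v q * SP w q₁` is `0`, or `q = q₁`, `v = w` and it is
`P w`, or `q = q₁ ++ g :: r` with `src g = w` and it is `TP v (g :: r)` (induction); similarly
`TP w p₁ * SP v p` if `p₁.length ≤ p.length`.  So `TP w p₁ * wd t * SP w q₁` is `P w` for `t = t₁`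
and for every other `t ∈ s` it is either `0`, or a multiple `TP v .. (g :: r)` on the right or
`SP w (g :: r)` on the left, where in the first case `v ∉ H` is reached from `w`, in the second
`w` is reached from `w`.  In the last two cases `T f * _ * S f = 0` for every edge `f ≠ g`
from `w`.  If all the others are `0`, then `c = (k t₁)⁻¹ • TP w p₁`, `d = SP w q₁` do, up to an
element of `idl H`.  Otherwise there are infinitely many edges `f` from `w` with `rng f ∉ H` (by
infinite branching, as `w` reaches some vertex outside `H` by a path of positive length, and `H`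
is hereditary), so one of them is different from all the `g`, and
`T f * TP w p₁ * x * SP w q₁ * S f = k t₁ • P (rng f) + z'` with `z' ∈ idl H` (`idl H` is an
ideal: `S_idlId`). -/
def S_reduce : Prop := ∀ (E : DGraph), E.InfBranch → ∀ (H : Set E.V), Hered E H →
  ∀ x : LPA E, x ∉ idl H → ∃ c d w, w ∉ H ∧ c * x * d - (lf E).P w ∈ idl H

/-- `idl H` is an ideal.  Proof: as `lpa_words` / `P_word`, `S_word`, `T_word` in `NX/Span.lean`:
the set of all `x` with `x * y ∈ idl H` for all `y ∈ idl H` contains the generators (for
`T e * wd v [] q`, `v = src e`, use that `rng e ∈ H`) and is closed under sums, multiples and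
products (`lpa_top` or the same induction); symmetrically on the right. -/
def S_idlId : Prop := ∀ (E : DGraph) (H : Set E.V), Hered E H → IsId (idl H)

/-- The vertices in `idl H`.  Proof: `P w = wd w [] []`.  Conversely the trace of `w`
(`S_trace`, `S_noreg`) vanishes on `idl H` if `w ∉ H`, and is `1` at `P w`. -/
def S_pmem : Prop := ∀ (E : DGraph), E.InfBranch → ∀ (H : Set E.V) (w : E.V),
  (lf E).P w ∈ idl H ↔ w ∈ H

/-- All ideals.  Proof: `P (rng e) = T e * P (src e) * S e`, so the set `H` of all `v` with
`P v ∈ J` is hereditary, and `idl H ≤ J` since `wd v p q = SP v p * P v * TP v q`.  If `x ∈ J` and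
`x ∉ idl H`, then `S_reduce` gives `w ∉ H` with `P w ∈ J`. -/
def S_ideal : Prop := ∀ (E : DGraph), E.InfBranch → ∀ J : Submodule ℂ (LPA E), IsId J →
  Hered E {v | (lf E).P v ∈ J} ∧ J = idl {v | (lf E).P v ∈ J}

/-- Idempotents modulo commutators.  Proof: let `D` be as in `S_der` and
`N = idl K' ⊔ comm E`.  `D` maps `N` into `N` (words are eigenvectors;
`D (a b - b a) = (Da b - b Da) + (a Db - Db a)`).  `D p = Dp p + p Dp`, so `p Dp p = 0` and
`D p = [[D p, p], p] ∈ comm E`.  Let `W n` be the span of the valid words through `K` with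
`p.length - q.length = n`.  Claim: for every finite set `S` of nonzero integers and every
`y ∈ W 0 ⊔ S.sup W` with `D y ∈ N` one has `y ∈ W 0 ⊔ N`: induction on `S`; for `insert m S`
replace `y` by `y' = y - m⁻¹ • D y`: the map `1 - m⁻¹ D` kills `W m` and preserves the other `W n`,
and `D y' ∈ N`.  So `p ∈ W 0 ⊔ N`.  Finally a valid word `wd v p q` with
`p.length = q.length` is modulo `comm E` the product `TP v q * SP v p`, which is `P v` or `0`, and
`v ∈ K'` or `v ∈ K \ K'`. -/
def S_idem : Prop := ∀ (E : DGraph) (K K' : Set E.V) (p : LPA E), p * p = p → p ∈ idl K →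
  p ∈ Submodule.span ℂ ((lf E).P '' (K \ K')) ⊔ (idl K' ⊔ comm E)

/-- The choices.  Proof: `NewEd E × ℕ` is countable; fix an injection `ε : NewEd E → ℕ` and put
`enc (g, i) = Nat.pair (ε g) i`.  By strong recursion on `n : ℕ` choose a list `L n : List E.Ed`:
let `U n` be the finite set of all members of the lists `L m`, `m < n`; if `n = enc κ`, the set of
all edges `e` from `κ.1.1.1` such that `κ.1.1.2.1` is reached from `rng e` is infinite, so choose
one outside `U n`, and a path `μ` from `rng e` to `κ.1.1.2.1` without repeated vertices; if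
`e ∈ μ`, cut `μ` after the last `e`: so there is such a path without `e`.  Let `L n = e :: μ`; for
the other `n` let `L n = []`.  Put `a κ = (L (enc κ)).head`, `μ κ = (L (enc κ)).tail`. -/
def S_choice : Prop := ∀ (E : DGraph) [Countable E.V], E.InfBranch → Nonempty (Choice E)

/-- The family of the amplification.  Proof: for `e = a κ` the choice is `κ` (`ainj`).  Relations:
`N κ * M κ = P u`, `M κ * P u = M κ`, `P (rng (a κ)) * M κ = M κ`,
`N κ * P (rng (a κ)) = N κ` (`u = κ.1.1.2.1`), and `T e * S f = 0` for `e ≠ f`.  Check all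
products `T x * S y` by cases (`x`, `y` new, of the form `a κ`, or other old edges).  The last
relation is vacuous by the second hypothesis. -/
def S_plusL : Prop := ∀ (E : DGraph) (c : Choice E) (R : Type) [NonUnitalRing R] (l : Fam E R),
  IsLeavitt l → (∀ (v : E.V) (s : Finset (amp E).Ed), s.Nonempty →
    ¬ ∀ e, e ∈ s ↔ (amp E).src e = v) → IsLeavitt (c.plus l)

/-- The old edges from the new family.  Proof: old edges which are not of the form `a κ` are
unchanged.  For `a κ` strong induction on `enc κ`: the edges of `μ κ` are not of the form `a κ'`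
with `enc κ ≤ enc κ'`, so `M κ`, `N κ ∈ X`; for `κ = (g, 0)`
`S (a κ) = S⁺ (new g) * N κ + S⁺ (a κ) - S⁺ (a κ) * (M κ * N κ)`, for `κ = (g, i + 1)` also
`M (g, i) ∈ X` (`mono`) and
`S (a κ) = S⁺ (a (g, i)) * M (g, i) * N κ + S⁺ (a κ) - S⁺ (a κ) * (M κ * N κ)`; similarly for
`T`. -/
def S_plusG : Prop := ∀ (E : DGraph) (c : Choice E) (R : Type) [NonUnitalRing R] (l : Fam E R),
  IsLeavitt l → ∀ X : NonUnitalSubring R, (∀ v, l.P v ∈ X) → (∀ x, (c.plus l).S x ∈ X) →
    (∀ x, (c.plus l).T x ∈ X) → ∀ e, l.S e ∈ X ∧ l.T e ∈ X

/-- Adjoints.  Proof: take the star of all relations; `star (M κ) ` is the word `N κ` of the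
adjoint family. -/
def S_adj : Prop := ∀ (E : DGraph) (R : Type) [NonUnitalRing R] [StarRing R] (l : Fam E R),
  (IsLeavitt l → IsLeavitt l.adj) ∧ (IsCK l ↔ IsLeavitt l ∧ l.adj = l) ∧
    ∀ c : Choice E, (c.plus l).adj = c.plus l.adj

/-- The amplification of an infinitely branching graph, and of two graphs with isomorphic
reachability relations.  Proof: `(amp E).Step v w` implies `TransGen E.Step v w`, and if
`TransGen E.Step v u`, then the edges `inr (v, u, n)` are infinitely many.  For the second part:
for all `v' u' : F.V` the set of edges `x` of `amp E` with `(β (src x), β (rng x)) = (v', u')` and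
the set of edges of `amp F` from `v'` to `u'` are both empty or both countably infinite; use
`Equiv.ofFiberEquiv`. -/
def S_amp : Prop := (∀ E : DGraph, E.InfBranch → (amp E).InfBranch) ∧
  ∀ (E F : DGraph) [Countable E.V] [Countable E.Ed] [Countable F.V] [Countable F.Ed]
    (β : E.V ≃ F.V), (∀ v w, TransGen E.Step v w ↔ TransGen F.Step (β v) (β w)) →
    ∃ γ : (amp E).Ed ≃ (amp F).Ed, (∀ x, (amp F).src (γ x) = β ((amp E).src x)) ∧
      ∀ x, (amp F).rng (γ x) = β ((amp E).rng x)

/-- Injectivity.  Proof: let `x` be in the kernel, `x ≠ 0`.  `idl ∅ = ⊥`, so `S_reduce` with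
`H = ∅` gives `c x d = P w`, hence `l.P w = 0` (`lLift_lf`). -/
def S_inj : Prop := ∀ (E : DGraph), E.InfBranch → ∀ (R : Type) [NonUnitalRing R] [Module ℂ R]
  (φ : LPA E →ₙₐ[ℂ] R), (∀ v, φ ((lf E).P v) ≠ 0) → Function.Injective φ

/-- Isomorphism with the amplification.  Proof: `f` is the inverse of
`θ = lLift` of `c.plus (lf E)` (`c` from `S_choice`, `S_plusL`, `S_amp`, `S_noreg`), which is
injective by `S_inj` (`P v ≠ 0` by `S_pmem` with `H = ∅`) and surjective by `S_plusG` (use
`NonUnitalAlgebra.adjoin_induction` or `lpa_top` for the range).  `c.plus` commutes with `Fam.map`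
(`map_SP`, `map_TP`).  Compatibility of `θ`: if `l = (lf E).map φ` is CK, then
`(lf (amp E)).map (φ.comp θ) = c.plus l`, which is CK by `S_adj`, `S_plusL`.  Compatibility of the
inverse `f` of `θ`: let `m = (lf (amp E)).map φ` be CK and `l = (lf E).map (φ.comp f)`; then
`c.plus l = m` and `c.plus l.adj = m.adj = m`; so `lLift` of `l.adj` and of `l` agree after `θ`
(`lpa_ext`), hence they are equal as `θ` is surjective, and `l.adj = l`. -/
def S_ampIso : Prop := ∀ (E : DGraph) [Countable E.V], E.InfBranch → Nonempty (SIso E (amp E))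

/-- Reachability isomorphism gives an isomorphism.  Proof: compose `S_ampIso` for `E`, the
isomorphism `P v ↦ P (β v)`, `S x ↦ S (γ x)`, `T x ↦ T (γ x)` of `S_amp`, and the inverse of
`S_ampIso` for `F`. -/
def S_back : Prop := ∀ (E F : DGraph) [Countable E.V] [Countable E.Ed] [Countable F.V]
  [Countable F.Ed], E.InfBranch → F.InfBranch → ∀ (β : E.V ≃ F.V),
  (∀ v w, TransGen E.Step v w ↔ TransGen F.Step (β v) (β w)) → Nonempty (SIso E F)

/-- Corresponding vertices.  Proof: for every `v` the ideal `idl (dn v)` is the smallest ideal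
which contains `P v`, and every ideal `K ≤ idl (dn v)` with `P v ∉ K` is contained in
`idl (bl v)` (`S_ideal`, `S_pmem`).  (1) `K = map f (idl (dn v))` is an ideal, `K = idl H'`.  If
`P v ∉ comap f (idl (dn w))` for all `w ∈ H'`, then
`comap f (idl (dn w)) ≤ idl (bl v)` for all these `w`, so `K ≤ map f (idl (bl v))` and
`P v ∈ idl (bl v)`, a contradiction.  (2) `Rel v w` means `map f (idl (dn v)) = idl (dn w)`.
(3) `map f (idl (bl v))` is an ideal inside `idl (dn w)` which does not contain `P w`. -/
def S_rel : Prop := ∀ (E F : DGraph), E.InfBranch → F.InfBranch → ∀ I : AIso E F,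
  (∀ v, ∃ w, I.Rel v w) ∧
  (∀ v w v' w', I.Rel v w → I.Rel v' w' → (v' ∈ dn v ↔ w' ∈ dn w)) ∧
  (∀ v w, I.Rel v w → ∀ x, (x ∈ idl (dn v) → I.f x ∈ idl (dn w)) ∧
    (x ∈ idl (bl v) → I.f x ∈ idl (bl w)))

/-- Components have the same size.  Proof: put `N = idl (bl w) ⊔ comm F`,
`N' = idl (bl v) ⊔ comm E`.  The classes of the `f (P u)`, `u ∈ cp v`, in `LPA F ⧸ N` are
linearly independent: if a combination of the `f (P u)` is in `N`, then applying `g` (`S_rel` for
`I.symm`) the combination of the `P u` is in `N'`; the trace of `u` vanishes on `comm E` and on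
`idl (bl v)`, so the coefficient of `u` is `0`.  They are in the span of the classes of the `P u'`,
`u' ∈ cp w`, by `S_idem` (`K = dn w`, `K' = bl w`, `K \ K' = cp w`).  So
`#(cp v) ≤ #(cp w)` (`LinearIndependent.cardinal_le_rank`, `rank_span_le`). -/
def S_card : Prop := ∀ (E F : DGraph), E.InfBranch → F.InfBranch → ∀ (I : AIso E F) (v : E.V)
  (w : F.V), I.Rel v w → Cardinal.mk (cp v) ≤ Cardinal.mk (cp w)

/-- Cyclic components.  Proof: suppose `w` is not cyclic.  Then `P w * y * P w ∈ ℂ • P w + idl (bl w)`
for all `y` (words: `P w * wd u p q * P w` is `0` or `u ∈ dn w`, and if `u = w`, then `p`, `q` are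
closed paths at `w`, so empty).  Let `p = g (P w)`; it is an idempotent of `idl (dn v)`, not in
`idl (bl v)`, and `p * y * p ∈ ℂ • p + idl (bl v)` for all `y`.  By `S_reduce` (`H = bl v`)
`c * p * d - P u ∈ idl (bl v)` with `u ∉ bl v`; as `P u ∈ idl (dn v)`, `u ∈ cp v`.  For all `y`,
modulo `idl (bl v)`, `P u * y * P u = (P u c p)(p d P u) y (P u c p)(p d P u)` is a multiple of
`P u`.  But if `v` is cyclic, so is `u`; let `q` be a nonempty closed path at `u` with first edge
`e`, and `f ≠ e` an edge from `u` with `u` reached from `rng f` (infinite branching).  Then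
`SP u q = P u * SP u q * P u = k • P u + z`, so `0 = T f * SP u q * S f = k • P (rng f) + z'`,
with `rng f ∈ cp v`, so `k = 0`; then `SP u q ∈ idl (bl v)` and `P u = TP u q * SP u q` too, a
contradiction. -/
def S_cyc : Prop := ∀ (E F : DGraph), E.InfBranch → F.InfBranch → ∀ (I : AIso E F) (v : E.V)
  (w : F.V), I.Rel v w → TransGen E.Step v v → TransGen F.Step w w

/-- A bijection inside a relation.  Proof: the sets `f x = {y | R x y}` and
`g y = {y' | ∃ x, R x y ∧ R x y'}` define maps to `Set Y`; the fibres over each `c` are equivalent: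
both empty or those of `hf`; use `Equiv.ofFiberEquiv`. -/
def S_equiv : Prop := ∀ (X Y : Type) (R : X → Y → Prop), (∀ x, ∃ y, R x y) → (∀ y, ∃ x, R x y) →
  (∀ x y, R x y → Nonempty ({x' // R x' y} ≃ {y' // R x y'})) →
  (∀ x y x' y', R x y → R x' y → R x y' → R x' y') → ∃ β : X ≃ Y, ∀ x, R x (β x)

/-- An isomorphism gives a reachability isomorphism.  Proof: `S_equiv` for `R = I.Rel`; by `S_rel`
`{x' | Rel x' w} = cp v` and `{y' | Rel v y'} = cp w` if `Rel v w`; cardinalities by `S_card` for
`I` and `I.symm`.  Then `u ∈ dn v ↔ β u ∈ dn (β v)`, and `TransGen v v ↔ TransGen (β v) (β v)` by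
`S_cyc` for `I` and `I.symm`. -/
def S_fwd : Prop := ∀ (E F : DGraph), E.InfBranch → F.InfBranch → ∀ _ : AIso E F,
  ∃ β : E.V ≃ F.V, ∀ v w, TransGen E.Step v w ↔ TransGen F.Step (β v) (β w)

end Pool.Agent.Lib.MP_8f60dc_al.IB
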